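import Pool.Agent.Y288.Z7.Tors

/-!
Parametrization of the pairs of integral vectors with given Gram matrix (Z700-CNT).
-/

set_option autoImplicit false
set_option linter.all false

namespace Pool.Agent.Y288.Z7

open Finset Matrix Pool.Agent.Z700

theorem mem_vec (n : ℤ) (v : V3) : v ∈ Pool.Agent.Z700.vec n ↔ dt v v = n := by
  rw [Pool.Agent.Z700.vec, Finset.mem_filter, dt_eq, Fintype.mem_piFinset]
  constructor
  · exact fun h => h.2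
  · intro h
    refine ⟨fun i => ?_, h⟩
    rw [dt] at h
    have key : ∀ x : ℤ, x ≤ x * x ∧ -x ≤ x * x := fun x => by
      constructor <;> rcases le_total 0 x with hx | hx <;> rcases eq_or_ne x 0 with h0 | h0
      · rw [h0]; simp
      · have : 1 ≤ x := by omega
        nlinarith
      · rw [h0]; simp
      · nlinarith [mul_self_nonneg x]
      · rw [h0]; simp
      · nlinarith [mul_self_nonneg x]
      · rw [h0]; simp
      · have : x ≤ -1 := by omega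
        nlinarith
    have k0 := key (v 0)
    have k1 := key (v 1)
    have k2 := key (v 2)
    have s0 := mul_self_nonneg (v 0)
    have s1 := mul_self_nonneg (v 1)
    have s2 := mul_self_nonneg (v 2)
    rw [Finset.mem_Icc]
    fin_cases i
    · exact ⟨by show -n ≤ v 0; linarith, by show v 0 ≤ n; linarith⟩
    · exact ⟨by show -n ≤ v 1; linarith, by show v 1 ≤ n; linarith⟩
    · exact ⟨by show -n ≤ v 2; linarith, by show v 2 ≤ n; linarith⟩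

/-- cross product -/
def crs (v w : Fin 3 → ℤ) : Fin 3 → ℤ :=
  ![v 1 * w 2 - v 2 * w 1, v 2 * w 0 - v 0 * w 2, v 0 * w 1 - v 1 * w 0]

theorem crs0 (v w : Fin 3 → ℤ) : crs v w 0 = v 1 * w 2 - v 2 * w 1 := rfl
theorem crs1 (v w : Fin 3 → ℤ) : crs v w 1 = v 2 * w 0 - v 0 * w 2 := rfl
theorem crs2 (v w : Fin 3 → ℤ) : crs v w 2 = v 0 * w 1 - v 1 * w 0 := rfl

theorem ext3 {v w : Fin 3 → ℤ} (h0 : v 0 = w 0) (h1 : v 1 = w 1) (h2 : v 2 = w 2) : v = w := by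
  funext i
  fin_cases i
  · exact h0
  · exact h1
  · exact h2

theorem lagrange (v w : Fin 3 → ℤ) : dt (crs v w) (crs v w) = dt v v * dt w w - dt v w ^ 2 := by
  simp only [dt, crs0, crs1, crs2]; ring

theorem dd3_eq (v w z : Fin 3 → ℤ) : dd3 v w z = dt (crs v w) z := by
  simp only [dt, dd3, crs0, crs1, crs2]; ring

theorem dd3_eq' (v w z : Fin 3 → ℤ) : dd3 v w z = dt v (crs w z) := by
  simp only [dt, dd3, crs0, crs1, crs2]; ring

theorem dt_comm (v w : Fin 3 → ℤ) : dt v w = dt w v := by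
  simp only [dt]; ring

theorem dcross (v c y : Fin 3 → ℤ) : crs v (crs c y) = (dt v y) • c - (dt v c) • y := by
  apply ext3 <;> simp only [dt, crs0, crs1, crs2, Pi.sub_apply, Pi.smul_apply, smul_eq_mul] <;> ring

theorem crs_lin (v w : Fin 3 → ℤ) (a k : ℤ) : crs v (a • w + k • v) = a • crs v w := by
  apply ext3 <;> simp only [crs0, crs1, crs2, Pi.add_apply, Pi.smul_apply, smul_eq_mul] <;> ring

theorem crs_sub (v w u : Fin 3 → ℤ) : crs v (w - u) = crs v w - crs v u := by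
  apply ext3 <;> simp only [crs0, crs1, crs2, Pi.sub_apply] <;> ring

theorem dt_crs_left (v w : Fin 3 → ℤ) : dt (crs v w) v = 0 := by
  simp only [dt, crs0, crs1, crs2]; ring

theorem dt_crs_right (v w : Fin 3 → ℤ) : dt (crs v w) w = 0 := by
  simp only [dt, crs0, crs1, crs2]; ring

theorem dt_add (v w u : Fin 3 → ℤ) : dt v (w + u) = dt v w + dt v u := by
  simp only [dt, Pi.add_apply]; ring

theorem dt_sub (v w u : Fin 3 → ℤ) : dt v (w - u) = dt v w - dt v u := by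
  simp only [dt, Pi.sub_apply]; ring

theorem dt_smul (v w : Fin 3 → ℤ) (a : ℤ) : dt v (a • w) = a * dt v w := by
  simp only [dt, Pi.smul_apply, smul_eq_mul]; ring

theorem smul_dt (v w : Fin 3 → ℤ) (a : ℤ) : dt (a • v) w = a * dt v w := by
  simp only [dt, Pi.smul_apply, smul_eq_mul]; ring

theorem cramer3 (v w z u : Fin 3 → ℤ) : dd3 v w z • u =
    (dt u (crs w z)) • v + (dt u (crs z v)) • w + (dt u (crs v w)) • z := by
  apply ext3 <;> simp only [dd3, dt, crs0, crs1, crs2, Pi.add_apply, Pi.smul_apply, smul_eq_mul] <;>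
    ring

theorem gram_det (v w z : Fin 3 → ℤ) :
    dt v v * dt w w * dt z z + 2 * dt v w * dt v z * dt w z - dt v v * dt w z ^ 2 -
      dt w w * dt v z ^ 2 - dt z z * dt v w ^ 2 = dd3 v w z ^ 2 := by
  simp only [dt, dd3]; ring

theorem small {x m t : ℤ} (h : x = t * m) (h1 : -m < x) (h2 : x < m) : t = 0 := by
  have hm : 0 ≤ m := by linarith
  by_contra hne
  rcases lt_or_gt_of_ne hne with hlt | hlt
  · have h3 : t ≤ -1 := by omega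
    have h4 := mul_le_mul_of_nonneg_right h3 hm
    linarith
  · have h3 : 1 ≤ t := by omega
    have h4 := mul_le_mul_of_nonneg_right h3 hm
    linarith

/-- parallel vectors -/
theorem parallel {v u y : Fin 3 → ℤ} (hy : dt y v = 1) (h : crs v u = 0) : u = (dt y u) • v := by
  have h1 := dcross y v u
  rw [h] at h1
  have h2 : crs y 0 = 0 := by
    apply ext3 <;> simp [crs0, crs1, crs2]
  rw [h2, hy, one_smul] at h1
  exact (sub_eq_zero.1 h1.symm).symm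

/-- Bezout -/
theorem bez (c : Fin 3 → ℤ) (h : ∀ g : ℕ, (∀ i, (g : ℤ) ∣ c i) → g = 1) : ∃ y, dt c y = 1 := by
  have h1 : (Int.gcd (c 0) (c 1) : ℤ) = c 0 * Int.gcdA (c 0) (c 1) + c 1 * Int.gcdB (c 0) (c 1) :=
    Int.gcd_eq_gcd_ab _ _
  have h2 : (Int.gcd (Int.gcd (c 0) (c 1)) (c 2) : ℤ) =
      (Int.gcd (c 0) (c 1) : ℤ) * Int.gcdA (Int.gcd (c 0) (c 1)) (c 2) +
        c 2 * Int.gcdB (Int.gcd (c 0) (c 1)) (c 2) := Int.gcd_eq_gcd_ab _ _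
  have h3 : Int.gcd (Int.gcd (c 0) (c 1)) (c 2) = 1 := by
    apply h
    intro i
    fin_cases i
    · exact (Int.gcd_dvd_left _ _).trans (Int.gcd_dvd_left _ _)
    · exact (Int.gcd_dvd_left _ _).trans (Int.gcd_dvd_right _ _)
    · exact Int.gcd_dvd_right _ _
  rw [h3] at h2
  push_cast at h2
  generalize (Int.gcdA (Int.gcd (c 0) (c 1)) (c 2)) = r at h2
  generalize (Int.gcdB (Int.gcd (c 0) (c 1)) (c 2)) = t at h2
  generalize (Int.gcdA (c 0) (c 1)) = p at h1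
  generalize (Int.gcdB (c 0) (c 1)) = q at h1
  rw [h1] at h2
  refine ⟨![p * r, q * r, t], ?_⟩
  rw [dt]
  show c 0 * (p * r) + c 1 * (q * r) + c 2 * t = 1
  linarith

/-- the content of a nonzero vector -/
theorem content (c : Fin 3 → ℤ) (h : c ≠ 0) : ∃ (e : ℕ) (c' y : Fin 3 → ℤ), 0 < e ∧
    c = (e : ℤ) • c' ∧ dt c' y = 1 := by
  set g := Int.gcd (Int.gcd (c 0) (c 1)) (c 2) with hg
  have hd : ∀ i, (g : ℤ) ∣ c i := by
    intro i
    fin_cases i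
    · exact (Int.gcd_dvd_left _ _).trans (Int.gcd_dvd_left _ _)
    · exact (Int.gcd_dvd_left _ _).trans (Int.gcd_dvd_right _ _)
    · exact Int.gcd_dvd_right _ _
  have hg0 : 0 < g := by
    rw [pos_iff_ne_zero]
    intro h0
    apply h
    funext i
    have := hd i
    rw [h0] at this
    simpa using this
  choose c' hc' using hd
  have hmax : ∀ k : ℕ, (∀ i, (k : ℤ) ∣ c i) → k ∣ g := by
    intro k hk
    have h1 : (k : ℤ) ∣ (Int.gcd (c 0) (c 1) : ℤ) := Int.dvd_coe_gcd (hk 0) (hk 1)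
    have h2 : (k : ℤ) ∣ (g : ℤ) := Int.dvd_coe_gcd h1 (hk 2)
    exact_mod_cast h2
  obtain ⟨y, hy⟩ := bez c' (fun k hk => by
    have h1 : g * k ∣ g := hmax (g * k) (fun i => by
      rw [hc' i]; push_cast
      exact mul_dvd_mul_left _ (hk i))
    have h2 : g * k ≤ g * 1 := by rw [mul_one]; exact Nat.le_of_dvd hg0 h1
    have h3 : k ≤ 1 := Nat.le_of_mul_le_mul_left h2 hg0
    have h4 : k ≠ 0 := by
      rintro rfl
      rw [mul_zero] at h1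
      exact hg0.ne' (Nat.eq_zero_of_zero_dvd h1)
    omega)
  exact ⟨g, c', y, hg0, funext fun i => hc' i, hy⟩

theorem prim_of_sqfree {n : ℕ} (hn : Squarefree n) {v : Fin 3 → ℤ} (h : dt v v = n) :
    ∃ y, dt v y = 1 := by
  apply bez
  intro g hg
  have h1 : ((g * g : ℕ) : ℤ) ∣ (n : ℤ) := by
    rw [← h, dt]; push_cast
    exact dvd_add (dvd_add (mul_dvd_mul (hg 0) (hg 0)) (mul_dvd_mul (hg 1) (hg 1)))
      (mul_dvd_mul (hg 2) (hg 2))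
  have h2 : g * g ∣ n := by exact_mod_cast h1
  exact Nat.isUnit_iff.1 (hn g h2)

/-- the conditions defining the set of parameters, with the quotients named -/
structure Wit (n1 : ℕ) (b : ℤ) (D e μ β ν D' d ee g f : ℕ) : Prop where
  he : 0 < e
  hD : D = e ^ 2 * D'
  hβ : β < D'
  hμ : μ < n1
  hν : ν < n1
  hb : (n1 : ℤ) ∣ e * μ - b
  hd : n1 * d = μ ^ 2 + D'
  hg : D' * g = β ^ 2 + n1
  hee : n1 * ee = β + μ * ν
  hf : n1 * f = g + ν ^ 2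

theorem wit_of_mem {n1 D : ℕ} {b : ℤ} {e μ β ν : ℕ} (h : (e, μ, β, ν) ∈ XX n1 b D) :
    Wit n1 b D e μ β ν (D / e ^ 2) ((μ ^ 2 + D / e ^ 2) / n1) ((β + μ * ν) / n1)
      ((n1 + β ^ 2) / (D / e ^ 2)) (((n1 + β ^ 2) / (D / e ^ 2) + ν ^ 2) / n1) := by
  simp only [XX, Finset.mem_filter, Finset.mem_product, Finset.mem_range] at h
  obtain ⟨⟨h1, h2, h3, h4⟩, h5, h6, h7, h8, h9, h10, h11, h12⟩ := h
  refine ⟨h5, (Nat.mul_div_cancel' h6).symm, h7, h2, h4, h8, Nat.mul_div_cancel' h9, ?_,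
    Nat.mul_div_cancel' h11, Nat.mul_div_cancel' h12⟩
  rw [add_comm n1, Nat.mul_div_cancel' h10]

theorem mem_of_wit {n1 D : ℕ} {b : ℤ} {e μ β ν D' d ee g f : ℕ} (hD0 : 0 < D)
    (h : Wit n1 b D e μ β ν D' d ee g f) : (e, μ, β, ν) ∈ XX n1 b D ∧ D / e ^ 2 = D' ∧
      (μ ^ 2 + D / e ^ 2) / n1 = d ∧ (β + μ * ν) / n1 = ee ∧
      ((n1 + β ^ 2) / (D / e ^ 2) + ν ^ 2) / n1 = f := by
  obtain ⟨he, hD, hβ, hμ, hν, hb, hd, hg, hee, hf⟩ := h
  have he2 : 0 < e ^ 2 := pow_pos he 2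
  have hn : 0 < n1 := by omega
  have hD' : 0 < D' := by omega
  have e1 : D / e ^ 2 = D' := by rw [hD]; exact Nat.mul_div_cancel_left _ he2
  have e2 : (n1 + β ^ 2) / (D / e ^ 2) = g := by
    rw [e1, add_comm, ← hg]; exact Nat.mul_div_cancel_left _ hD'
  refine ⟨?_, e1, ?_, ?_, ?_⟩
  · simp only [XX, Finset.mem_filter, Finset.mem_product, Finset.mem_range]
    rw [e2, e1]
    refine ⟨⟨?_, hμ, ?_, hν⟩, he, ⟨D', hD⟩, hβ, hb, ⟨d, hd.symm⟩, ⟨g, hg.symm⟩, ⟨ee, hee.symm⟩,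
      ⟨f, hf.symm⟩⟩
    · have : e ≤ e ^ 2 := Nat.le_self_pow two_ne_zero e
      have h2 : e ^ 2 * 1 ≤ e ^ 2 * D' := Nat.mul_le_mul_left _ hD'
      omega
    · have h2 : 1 * D' ≤ e ^ 2 * D' := Nat.mul_le_mul_right _ he2
      omega
  · rw [e1, ← hd]; exact Nat.mul_div_cancel_left _ hn
  · rw [← hee]; exact Nat.mul_div_cancel_left _ hn
  · rw [e2, ← hf]; exact Nat.mul_div_cancel_left _ hn

/-- the Gram matrix of a tuple of parameters -/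
def mm (n1 D : ℕ) (q : ℕ × ℕ × ℕ × ℕ) : Matrix (Fin 3) (Fin 3) ℤ :=
  !![(n1 : ℤ), (q.2.1 : ℤ), (q.2.2.2 : ℤ);
     (q.2.1 : ℤ), (((q.2.1 ^ 2 + D / q.1 ^ 2) / n1 : ℕ) : ℤ),
       (((q.2.2.1 + q.2.1 * q.2.2.2) / n1 : ℕ) : ℤ);
     (q.2.2.2 : ℤ), (((q.2.2.1 + q.2.1 * q.2.2.2) / n1 : ℕ) : ℤ),
       ((((n1 + q.2.2.1 ^ 2) / (D / q.1 ^ 2) + q.2.2.2 ^ 2) / n1 : ℕ) : ℤ)]

theorem mm_symm (n1 D : ℕ) (q : ℕ × ℕ × ℕ × ℕ) : (mm n1 D q)ᵀ = mm n1 D q := by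
  ext i j
  fin_cases i <;> fin_cases j <;> rfl

theorem mm_pos {n1 D : ℕ} {b : ℤ} {e μ β ν : ℕ} (h : (e, μ, β, ν) ∈ XX n1 b D) :
    PosM (mm n1 D (e, μ, β, ν)) := by
  have hw := wit_of_mem h
  refine ⟨mm_symm _ _ _, ?_, ?_, ?_⟩
  · show (0 : ℤ) < n1
    have := hw.hμ
    exact_mod_cast (by omega : 0 < n1)
  · show (0 : ℤ) < n1 * (((μ ^ 2 + D / e ^ 2) / n1 : ℕ) : ℤ) - (μ : ℤ) ^ 2
    have h1 := hw.hd
    have h2 : (n1 : ℤ) * (((μ ^ 2 + D / e ^ 2) / n1 : ℕ) : ℤ) = (μ : ℤ) ^ 2 + ((D / e ^ 2 : ℕ) : ℤ) := by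
      exact_mod_cast h1
    have h3 : (0 : ℤ) < ((D / e ^ 2 : ℕ) : ℤ) := by
      have := hw.hβ
      exact_mod_cast (by omega : 0 < D / e ^ 2)
    rw [h2]
    linarith
  · rw [det_fin_three]
    show (n1 : ℤ) * (((μ ^ 2 + D / e ^ 2) / n1 : ℕ) : ℤ) *
        ((((n1 + β ^ 2) / (D / e ^ 2) + ν ^ 2) / n1 : ℕ) : ℤ) -
      (n1 : ℤ) * (((β + μ * ν) / n1 : ℕ) : ℤ) * (((β + μ * ν) / n1 : ℕ) : ℤ) -
      (μ : ℤ) * (μ : ℤ) * ((((n1 + β ^ 2) / (D / e ^ 2) + ν ^ 2) / n1 : ℕ) : ℤ) +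
      (μ : ℤ) * (((β + μ * ν) / n1 : ℕ) : ℤ) * (ν : ℤ) +
      (ν : ℤ) * (μ : ℤ) * (((β + μ * ν) / n1 : ℕ) : ℤ) -
      (ν : ℤ) * (((μ ^ 2 + D / e ^ 2) / n1 : ℕ) : ℤ) * (ν : ℤ) = 1
    obtain ⟨he, hD, hβ, hμ, hν, hb, hd, hg, hee, hf⟩ := hw
    generalize (μ ^ 2 + D / e ^ 2) / n1 = d at *
    generalize (β + μ * ν) / n1 = ee at *
    generalize ((n1 + β ^ 2) / (D / e ^ 2) + ν ^ 2) / n1 = f at *
    generalize (n1 + β ^ 2) / (D / e ^ 2) = g at *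
    generalize D / e ^ 2 = D' at *
    have hn : (n1 : ℤ) ≠ 0 := by exact_mod_cast (by omega : n1 ≠ 0)
    have k1 : (n1 : ℤ) * d = μ ^ 2 + D' := by exact_mod_cast hd
    have k2 : (D' : ℤ) * g = β ^ 2 + n1 := by exact_mod_cast hg
    have k3 : (n1 : ℤ) * ee = β + μ * ν := by exact_mod_cast hee
    have k4 : (n1 : ℤ) * f = g + ν ^ 2 := by exact_mod_cast hf
    apply mul_left_cancel₀ (mul_ne_zero hn hn)
    have e1 : (n1 : ℤ) * n1 * (n1 * d * f - n1 * ee * ee - μ * μ * f + μ * ee * ν + ν * μ * ee -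
        ν * d * ν) = n1 * ((n1 * d) * (n1 * f) - (n1 * ee) ^ 2 - μ ^ 2 * (n1 * f) +
          2 * μ * ν * (n1 * ee) - ν ^ 2 * (n1 * d)) := by ring
    rw [e1, k1, k3, k4]
    have e2 : ((μ : ℤ) ^ 2 + D') * (g + ν ^ 2) - (β + μ * ν) ^ 2 - μ ^ 2 * (g + ν ^ 2) +
        2 * μ * ν * (β + μ * ν) - ν ^ 2 * (μ ^ 2 + D') = D' * g - β ^ 2 := by ring
    rw [e2, k2]
    ring

theorem gram_mm {n1 D : ℕ} {b : ℤ} {e μ β ν : ℕ} {A : Matrix (Fin 3) (Fin 3) ℤ}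
    (hA : Aᵀ * A = mm n1 D (e, μ, β, ν)) {v w z : Fin 3 → ℤ} (hc : A = cols v w z) :
    dt v v = n1 ∧ dt v w = μ ∧ dt v z = ν ∧
      dt w w = (((μ ^ 2 + D / e ^ 2) / n1 : ℕ) : ℤ) ∧ dt w z = (((β + μ * ν) / n1 : ℕ) : ℤ) ∧
      dt z z = ((((n1 + β ^ 2) / (D / e ^ 2) + ν ^ 2) / n1 : ℕ) : ℤ) := by
  rw [hc, gram_iff v w z _ (mm_symm _ _ _)] at hA
  exact hA

/-- the pairs -/
abbrev Pairs (n1 n2 : ℕ) (b : ℤ) : Type :=
  {q : (Fin 3 → ℤ) × (Fin 3 → ℤ) // dt q.1 q.1 = n1 ∧ dt q.2 q.2 = n2 ∧ dt q.1 q.2 = b}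

theorem card_pairs (n1 n2 : ℕ) (b : ℤ) : Nat.card (Pairs n1 n2 b) = cp n1 b n2 := by
  rw [cp]
  apply Nat.subtype_card
  intro q
  rw [Finset.mem_filter, Finset.mem_product, mem_vec, mem_vec, dt_eq, and_assoc]

/-- the parameters and the frames -/
abbrev Fr (n1 : ℕ) (b : ℤ) (D : ℕ) : Type :=
  Σ x : {x : ℕ × ℕ × ℕ × ℕ // x ∈ XX n1 b D},
    {A : Matrix (Fin 3) (Fin 3) ℤ // Aᵀ * A = mm n1 D x.1 ∧ A.det = 1}

theorem card_fr (h : S_TORS) (n1 : ℕ) (b : ℤ) (D : ℕ) :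
    Nat.card (Fr n1 b D) = 24 * (XX n1 b D).card := by
  have h1 : ∀ x : {x : ℕ × ℕ × ℕ × ℕ // x ∈ XX n1 b D},
      Nat.card {A : Matrix (Fin 3) (Fin 3) ℤ // Aᵀ * A = mm n1 D x.1 ∧ A.det = 1} = 24 := by
    rintro ⟨⟨e, μ, β, ν⟩, hx⟩
    exact h _ (mm_pos hx)
  haveI : ∀ x : {x : ℕ × ℕ × ℕ × ℕ // x ∈ XX n1 b D},
      Finite {A : Matrix (Fin 3) (Fin 3) ℤ // Aᵀ * A = mm n1 D x.1 ∧ A.det = 1} := fun x =>
    Nat.finite_of_card_ne_zero (by rw [h1 x]; norm_num)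
  rw [Nat.card_sigma, Finset.sum_congr rfl (fun x _ => h1 x), Finset.sum_const, smul_eq_mul,
    Finset.card_univ, Fintype.card_coe, mul_comm]

/-- the pair attached to a frame -/
def toPair (b : ℤ) (n1 : ℕ) (x : ℕ × ℕ × ℕ × ℕ) (A : Matrix (Fin 3) (Fin 3) ℤ) :
    (Fin 3 → ℤ) × (Fin 3 → ℤ) :=
  (fun i => A i 0, (x.1 : ℤ) • (fun i => A i 1) + ((b - x.1 * x.2.1) / n1) • (fun i => A i 0))

theorem toPair_mem {n1 n2 D : ℕ} {b : ℤ} (hDD : (D : ℤ) = n1 * n2 - b ^ 2)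
    {e μ β ν : ℕ} (hx : (e, μ, β, ν) ∈ XX n1 b D) {A : Matrix (Fin 3) (Fin 3) ℤ}
    (hA : Aᵀ * A = mm n1 D (e, μ, β, ν)) :
    dt (toPair b n1 (e, μ, β, ν) A).1 (toPair b n1 (e, μ, β, ν) A).1 = n1 ∧
      dt (toPair b n1 (e, μ, β, ν) A).2 (toPair b n1 (e, μ, β, ν) A).2 = n2 ∧
      dt (toPair b n1 (e, μ, β, ν) A).1 (toPair b n1 (e, μ, β, ν) A).2 = b := by
  obtain ⟨h1, h2, h3, h4, h5, h6⟩ := gram_mm (b := b) hA (cols_eq A)
  have hw := wit_of_mem hx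
  simp only [toPair]
  generalize (fun i => A i 0) = v at *
  generalize (fun i => A i 1) = w at *
  have hn : (n1 : ℤ) ≠ 0 := by
    have := hw.hμ
    exact_mod_cast (by omega : n1 ≠ 0)
  obtain ⟨k, hk⟩ := hw.hb
  have hk' : (b - e * μ) / (n1 : ℤ) = -k := by
    rw [show b - (e : ℤ) * μ = n1 * (-k) by linarith]
    exact Int.mul_ediv_cancel_left _ hn
  rw [hk']
  refine ⟨h1, ?_, ?_⟩
  · have e1 : dt ((e : ℤ) • w + (-k) • v) ((e : ℤ) • w + (-k) • v) =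
        e ^ 2 * dt w w - 2 * e * k * dt v w + k ^ 2 * dt v v := by
      simp only [dt, Pi.add_apply, Pi.smul_apply, smul_eq_mul]; ring
    rw [e1, h1, h2, h4]
    have k1 : (n1 : ℤ) * (((μ ^ 2 + D / e ^ 2) / n1 : ℕ) : ℤ) = μ ^ 2 + ((D / e ^ 2 : ℕ) : ℤ) := by
      exact_mod_cast hw.hd
    have k2 : (D : ℤ) = e ^ 2 * ((D / e ^ 2 : ℕ) : ℤ) := by exact_mod_cast hw.hD
    generalize (((μ ^ 2 + D / e ^ 2) / n1 : ℕ) : ℤ) = d at *
    generalize ((D / e ^ 2 : ℕ) : ℤ) = D' at *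
    apply mul_left_cancel₀ hn
    have e2 : (n1 : ℤ) * (e ^ 2 * d - 2 * e * k * μ + k ^ 2 * n1) =
        e ^ 2 * (n1 * d) - 2 * (e * μ) * (n1 * k) + (n1 * k) ^ 2 := by ring
    rw [e2, k1, ← hk]
    have e3 : (e : ℤ) ^ 2 * (μ ^ 2 + D') - 2 * (e * μ) * (e * μ - b) + (e * μ - b) ^ 2 =
        e ^ 2 * D' + b ^ 2 := by ring
    rw [e3, ← k2, hDD]
    ring
  · rw [dt_add, dt_smul, dt_smul, h1, h2]
    linarith

theorem toPair_inj {n1 D : ℕ} {b : ℤ} {e μ β ν e' μ' β' ν' : ℕ}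
    (hx : (e, μ, β, ν) ∈ XX n1 b D) (hx' : (e', μ', β', ν') ∈ XX n1 b D)
    {A A' : Matrix (Fin 3) (Fin 3) ℤ} (hA : Aᵀ * A = mm n1 D (e, μ, β, ν)) (hd : A.det = 1)
    (hA' : A'ᵀ * A' = mm n1 D (e', μ', β', ν')) (hd' : A'.det = 1)
    (h : toPair b n1 (e, μ, β, ν) A = toPair b n1 (e', μ', β', ν') A') :
    (e, μ, β, ν) = (e', μ', β', ν') ∧ A = A' := by
  obtain ⟨h1, h2, h3, h4, h5, h6⟩ := gram_mm (b := b) hA (cols_eq A)
  obtain ⟨h1', h2', h3', h4', h5', h6'⟩ := gram_mm (b := b) hA' (cols_eq A')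
  rw [cols_eq A, det_cols] at hd
  rw [cols_eq A', det_cols] at hd'
  have hw := wit_of_mem hx
  have hw' := wit_of_mem hx'
  simp only [toPair, Prod.mk.injEq] at h
  obtain ⟨hv, hwv⟩ := h
  rw [cols_eq A, cols_eq A']
  rw [← hv] at h1' h2' h3' hd' hwv ⊢
  generalize (fun i => A i 0) = v at *
  generalize (fun i => A i 1) = w at *
  generalize (fun i => A i 2) = z at *
  generalize (fun i => A' i 1) = w' at *
  generalize (fun i => A' i 2) = z' at *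
  generalize (b - (e : ℤ) * μ) / (n1 : ℤ) = k at hwv
  generalize (b - (e' : ℤ) * μ') / (n1 : ℤ) = k' at hwv
  -- the content
  have c1 := congrArg (crs v) hwv
  rw [crs_lin, crs_lin] at c1
  rw [dd3_eq] at hd hd'
  have c2 := congrArg (fun u => dt u z) c1
  have c3 := congrArg (fun u => dt u z') c1
  simp only [smul_dt, hd, hd', mul_one] at c2 c3
  have hee : e = e' := by
    apply Nat.dvd_antisymm
    · have : (e : ℤ) ∣ e' := ⟨_, c3.symm⟩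
      exact_mod_cast this
    · have : (e' : ℤ) ∣ e := ⟨_, c2⟩
      exact_mod_cast this
  subst hee
  have he0 : (e : ℤ) ≠ 0 := by exact_mod_cast hw.he.ne'
  have c4 : crs v w = crs v w' := smul_right_injective _ he0 c1
  have hyv : dt (crs w z) v = 1 := by rw [dt_comm, ← dd3_eq', dd3_eq, hd]
  have c5 : crs v (w' - w) = 0 := by rw [crs_sub, c4, sub_self]
  have c6 := parallel hyv c5
  generalize dt (crs w z) (w' - w) = α at c6
  have c7 := congrArg (dt v) c6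
  rw [dt_sub, dt_smul, h1, h2, h2'] at c7
  have hα : α = 0 := by
    have b1 : (μ : ℤ) < n1 := by exact_mod_cast hw.hμ
    have b2 : (μ' : ℤ) < n1 := by exact_mod_cast hw'.hμ
    have b3 : (0 : ℤ) ≤ μ := by positivity
    have b4 : (0 : ℤ) ≤ μ' := by positivity
    exact small c7 (by linarith) (by linarith)
  rw [hα, zero_smul, sub_eq_zero] at c6
  subst c6
  have hμ : μ = μ' := by
    rw [h2] at h2'
    exact_mod_cast h2'
  subst hμ
  -- the third vector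
  have c8 : dt (crs v w') (z' - z) = 0 := by rw [dt_sub, hd, hd', sub_self]
  have c9 := cramer3 v w' z (z' - z)
  rw [dd3_eq, hd, one_smul, dt_comm (z' - z) (crs v w'), c8, zero_smul, add_zero] at c9
  generalize dt (z' - z) (crs w' z) = p at c9
  generalize dt (z' - z) (crs z v) = q at c9
  have d1 := congrArg (dt v) c9
  have d2 := congrArg (dt w') c9
  rw [dt_sub, dt_add, dt_smul, dt_smul, h1, h2, h3, h3'] at d1
  rw [dt_sub, dt_add, dt_smul, dt_smul, dt_comm w' v, h2, h4, h5, h5'] at d2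
  obtain ⟨he, hD, hβ, hμ, hν, hb, hd1, hg, hee, hf⟩ := hw
  obtain ⟨-, -, hβ', -, hν', -, -, hg', hee', hf'⟩ := hw'
  have k1 : (n1 : ℤ) * (((μ ^ 2 + D / e ^ 2) / n1 : ℕ) : ℤ) = μ ^ 2 + ((D / e ^ 2 : ℕ) : ℤ) := by
    exact_mod_cast hd1
  have k3 : (n1 : ℤ) * (((β + μ * ν) / n1 : ℕ) : ℤ) = β + μ * ν := by exact_mod_cast hee
  have k3' : (n1 : ℤ) * (((β' + μ * ν') / n1 : ℕ) : ℤ) = β' + μ * ν' := by exact_mod_cast hee'
  have b1 : (β : ℤ) < ((D / e ^ 2 : ℕ) : ℤ) := by exact_mod_cast hβ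
  have b2 : (β' : ℤ) < ((D / e ^ 2 : ℕ) : ℤ) := by exact_mod_cast hβ'
  have b3 : (0 : ℤ) ≤ β := by positivity
  have b4 : (0 : ℤ) ≤ β' := by positivity
  have b5 : (ν : ℤ) < n1 := by exact_mod_cast hν
  have b6 : (ν' : ℤ) < n1 := by exact_mod_cast hν'
  have b7 : (0 : ℤ) ≤ ν := by positivity
  have b8 : (0 : ℤ) ≤ ν' := by positivity
  generalize (((μ ^ 2 + D / e ^ 2) / n1 : ℕ) : ℤ) = dd at *
  generalize (((β + μ * ν) / n1 : ℕ) : ℤ) = ee at *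
  generalize (((β' + μ * ν') / n1 : ℕ) : ℤ) = ee' at *
  generalize ((D / e ^ 2 : ℕ) : ℤ) = D' at *
  have hq : (β' : ℤ) - β = q * D' := by
    linear_combination (n1 : ℤ) * d2 - (μ : ℤ) * d1 + k3 - k3' + q * k1
  have hq0 : q = 0 := small hq (by linarith) (by linarith)
  rw [hq0, zero_mul, add_zero] at d1
  have hp0 : p = 0 := small d1 (by linarith) (by linarith)
  rw [hq0, zero_mul] at hq
  rw [hp0, zero_mul] at d1
  rw [hp0, hq0, zero_smul, zero_smul, add_zero, sub_eq_zero] at c9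
  have e1 : β = β' := by exact_mod_cast (by linarith : (β : ℤ) = β')
  have e2 : ν = ν' := by exact_mod_cast (by linarith : (ν : ℤ) = ν')
  rw [e1, e2, c9]
  exact ⟨rfl, rfl⟩

theorem dt_self_nonneg (v : Fin 3 → ℤ) : 0 ≤ dt v v := by
  rw [dt]
  have := mul_self_nonneg (v 0)
  have := mul_self_nonneg (v 1)
  have := mul_self_nonneg (v 2)
  linarith

theorem crs_sub_smul (v w : Fin 3 → ℤ) (k : ℤ) : crs v (w - k • v) = crs v w := by
  apply ext3 <;> simp only [crs0, crs1, crs2, Pi.sub_apply, Pi.smul_apply, smul_eq_mul] <;> ring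

theorem crs_smul (v w : Fin 3 → ℤ) (k : ℤ) : crs v (k • w) = k • crs v w := by
  apply ext3 <;> simp only [crs0, crs1, crs2, Pi.smul_apply, smul_eq_mul] <;> ring

theorem toPair_surj {n1 n2 D : ℕ} {b : ℤ} (hs : Squarefree n1) (hD0 : 0 < D)
    (hDD : (D : ℤ) = n1 * n2 - b ^ 2) {v w : Fin 3 → ℤ} (hv : dt v v = n1) (hw : dt w w = n2)
    (hvw : dt v w = b) : ∃ (x : ℕ × ℕ × ℕ × ℕ) (A : Matrix (Fin 3) (Fin 3) ℤ),
      x ∈ XX n1 b D ∧ (Aᵀ * A = mm n1 D x ∧ A.det = 1) ∧ toPair b n1 x A = (v, w) := by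
  have hn0 : 0 < n1 := Nat.pos_of_ne_zero hs.ne_zero
  have hn : (0 : ℤ) < n1 := by exact_mod_cast hn0
  obtain ⟨y, hy⟩ := prim_of_sqfree hs hv
  have hcc : dt (crs v w) (crs v w) = D := by rw [lagrange, hv, hw, hvw, hDD]
  have hc0 : crs v w ≠ 0 := by
    intro h0
    rw [h0] at hcc
    simp only [dt, Pi.zero_apply, mul_zero, add_zero] at hcc
    have : D = 0 := by exact_mod_cast hcc.symm
    omega
  obtain ⟨e, c, z0, he, hce, hz0⟩ := content (crs v w) hc0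
  have heZ : (0 : ℤ) < e := by exact_mod_cast he
  have hcv : dt c v = 0 := by
    have h1 := dt_crs_left v w
    rw [hce, smul_dt] at h1
    exact (mul_eq_zero.1 h1).resolve_left heZ.ne'
  -- the second vector
  obtain ⟨w0, hw0⟩ : ∃ w0, w0 = crs c y := ⟨_, rfl⟩
  have hvw0 : crs v w0 = c := by
    rw [hw0, dcross, hy, dt_comm v c, hcv, one_smul, zero_smul, sub_zero]
  obtain ⟨w1, hw1⟩ : ∃ w1, w1 = w0 - (dt v w0 / n1) • v := ⟨_, rfl⟩
  have hvw1 : crs v w1 = c := by rw [hw1, crs_sub_smul, hvw0]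
  have hm : dt v w1 = dt v w0 % n1 := by
    rw [hw1, dt_sub, dt_smul, hv]
    have := Int.emod_add_mul_ediv (dt v w0) n1
    linarith
  have hm0 : 0 ≤ dt v w1 := by rw [hm]; exact Int.emod_nonneg _ hn.ne'
  have hm1 : dt v w1 < n1 := by rw [hm]; exact Int.emod_lt_of_pos _ hn
  -- the determinant
  have hDc : (e : ℤ) ^ 2 * dt c c = D := by
    rw [← hcc, hce, smul_dt, dt_smul]; ring
  have hc2 : dt c c = n1 * dt w1 w1 - dt v w1 ^ 2 := by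
    rw [← hvw1, lagrange, hv]
  have hcpos : 0 < dt c c := by
    have h1 := dt_self_nonneg c
    rcases h1.eq_or_lt with h2 | h2
    · rw [← h2, mul_zero] at hDc
      have : D = 0 := by exact_mod_cast hDc.symm
      omega
    · exact h2
  have hcw1 : dt c w1 = 0 := by rw [← hvw1]; exact dt_crs_right v w1
  -- the third vector
  obtain ⟨B0, hB0⟩ : ∃ B0, B0 = n1 * dt w1 z0 - dt v w1 * dt v z0 := ⟨_, rfl⟩
  obtain ⟨z1, hz1⟩ : ∃ z1, z1 = z0 - (B0 / dt c c) • w1 := ⟨_, rfl⟩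
  obtain ⟨z2, hz2⟩ : ∃ z2, z2 = z1 - (dt v z1 / n1) • v := ⟨_, rfl⟩
  have hcz : dt c z2 = 1 := by
    rw [hz2, dt_sub, dt_smul, hcv, hz1, dt_sub, dt_smul, hcw1, hz0]; ring
  have hN : dt v z2 = dt v z1 % n1 := by
    rw [hz2, dt_sub, dt_smul, hv]
    have := Int.emod_add_mul_ediv (dt v z1) n1
    linarith
  have hN0 : 0 ≤ dt v z2 := by rw [hN]; exact Int.emod_nonneg _ hn.ne'
  have hN1 : dt v z2 < n1 := by rw [hN]; exact Int.emod_lt_of_pos _ hn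
  have hB : n1 * dt w1 z2 - dt v w1 * dt v z2 = B0 % dt c c := by
    have h1 := Int.emod_add_mul_ediv B0 (dt c c)
    have h2 : n1 * dt w1 z2 - dt v w1 * dt v z2 = B0 - (B0 / dt c c) * dt c c := by
      rw [hz2, dt_sub, dt_sub, dt_smul, dt_smul, hv, dt_comm w1 v, hz1, dt_sub, dt_sub, dt_smul,
        dt_smul]
      generalize B0 / dt c c = q
      rw [hB0, hc2]
      ring
    linarith
  have hβ0 : 0 ≤ n1 * dt w1 z2 - dt v w1 * dt v z2 := by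
    rw [hB]; exact Int.emod_nonneg _ hcpos.ne'
  have hβ1 : n1 * dt w1 z2 - dt v w1 * dt v z2 < dt c c := by
    rw [hB]; exact Int.emod_lt_of_pos _ hcpos
  have hdet : dd3 v w1 z2 = 1 := by rw [dd3_eq, hvw1, hcz]
  have hgram := gram_det v w1 z2
  rw [hdet, hv] at hgram
  -- the coefficient of `v` in `w`
  have hu : crs v (w - (e : ℤ) • w1) = 0 := by
    rw [crs_sub, crs_smul, hvw1, hce, sub_self]
  have hk := parallel (y := y) (by rw [dt_comm, hy]) hu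
  obtain ⟨k, hkdef⟩ : ∃ k, k = dt y (w - (e : ℤ) • w1) := ⟨_, rfl⟩
  rw [← hkdef] at hk
  have hbk : b - e * dt v w1 = n1 * k := by
    have h1 := congrArg (dt v) hk
    rw [dt_sub, dt_smul, dt_smul, hv, hvw] at h1
    linarith
  -- natural numbers
  obtain ⟨μ, hμ⟩ : ∃ μ : ℕ, (μ : ℤ) = dt v w1 := ⟨_, Int.toNat_of_nonneg hm0⟩
  obtain ⟨ν, hν⟩ : ∃ ν : ℕ, (ν : ℤ) = dt v z2 := ⟨_, Int.toNat_of_nonneg hN0⟩
  obtain ⟨β, hβ⟩ : ∃ β : ℕ, (β : ℤ) = n1 * dt w1 z2 - dt v w1 * dt v z2 :=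
    ⟨_, Int.toNat_of_nonneg hβ0⟩
  obtain ⟨D', hD'⟩ : ∃ D' : ℕ, (D' : ℤ) = dt c c := ⟨_, Int.toNat_of_nonneg hcpos.le⟩
  obtain ⟨d, hd⟩ : ∃ d : ℕ, (d : ℤ) = dt w1 w1 := ⟨_, Int.toNat_of_nonneg (dt_self_nonneg w1)⟩
  obtain ⟨f, hf⟩ : ∃ f : ℕ, (f : ℤ) = dt z2 z2 := ⟨_, Int.toNat_of_nonneg (dt_self_nonneg z2)⟩
  have hee0 : 0 ≤ dt w1 z2 := by
    by_contra hcon
    push Not at hcon
    have h1 : (n1 : ℤ) * dt w1 z2 < 0 := mul_neg_of_pos_of_neg hn hcon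
    have h2 := mul_nonneg hm0 hN0
    linarith
  obtain ⟨ee, hee⟩ : ∃ ee : ℕ, (ee : ℤ) = dt w1 z2 := ⟨_, Int.toNat_of_nonneg hee0⟩
  rw [← hμ, ← hν, ← hee] at hβ
  rw [← hμ, ← hν, ← hee, ← hd, ← hf] at hgram
  rw [← hμ, ← hd, ← hD'] at hc2
  have hgeq : (D' : ℤ) * (n1 * f - ν ^ 2) = β ^ 2 + n1 := by
    rw [hc2, hβ]
    linear_combination (n1 : ℤ) * hgram
  have hg0 : (0 : ℤ) ≤ n1 * f - ν ^ 2 := by
    by_contra hcon
    push Not at hcon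
    have h1 : (D' : ℤ) * (n1 * f - ν ^ 2) < 0 :=
      mul_neg_of_pos_of_neg (by rw [hD']; exact hcpos) hcon
    have h2 := sq_nonneg (β : ℤ)
    linarith
  obtain ⟨g, hg⟩ : ∃ g : ℕ, (g : ℤ) = n1 * f - ν ^ 2 := ⟨_, Int.toNat_of_nonneg hg0⟩
  rw [← hg] at hgeq
  have hW : Wit n1 b D e μ β ν D' d ee g f := by
    refine ⟨he, ?_, ?_, ?_, ?_, ?_, ?_, ?_, ?_, ?_⟩
    · rw [← hD'] at hDc
      exact_mod_cast hDc.symm
    · have : (β : ℤ) < D' := by rw [hβ, hD', hμ, hν, hee]; exact hβ1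
      exact_mod_cast this
    · have : (μ : ℤ) < n1 := by rw [hμ]; exact hm1
      exact_mod_cast this
    · have : (ν : ℤ) < n1 := by rw [hν]; exact hN1
      exact_mod_cast this
    · refine ⟨-k, ?_⟩
      rw [hμ]
      linarith
    · have : (n1 : ℤ) * d = μ ^ 2 + D' := by rw [hc2]; ring
      exact_mod_cast this
    · exact_mod_cast hgeq
    · have : (n1 : ℤ) * ee = β + μ * ν := by rw [hβ]; ring
      exact_mod_cast this
    · have : (n1 : ℤ) * f = g + ν ^ 2 := by rw [hg]; ring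
      exact_mod_cast this
  obtain ⟨hmem, e1, e2, e3, e4⟩ := mem_of_wit hD0 hW
  refine ⟨(e, μ, β, ν), cols v w1 z2, hmem, ⟨?_, ?_⟩, ?_⟩
  · rw [gram_iff v w1 z2 _ (mm_symm _ _ _)]
    refine ⟨hv, hμ.symm, hν.symm, ?_, ?_, ?_⟩
    · show dt w1 w1 = (((μ ^ 2 + D / e ^ 2) / n1 : ℕ) : ℤ)
      rw [e2, hd]
    · show dt w1 z2 = (((β + μ * ν) / n1 : ℕ) : ℤ)
      rw [e3, hee]
    · show dt z2 z2 = ((((n1 + β ^ 2) / (D / e ^ 2) + ν ^ 2) / n1 : ℕ) : ℤ)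
      rw [e4, hf]
  · rw [det_cols, hdet]
  · have hkk : (b - (e : ℤ) * μ) / n1 = k := by
      rw [hμ, hbk]
      exact Int.mul_ediv_cancel_left _ hn.ne'
    refine Prod.ext rfl ?_
    show (e : ℤ) • w1 + ((b - (e : ℤ) * μ) / n1) • v = w
    rw [hkk, ← hk]
    abel

theorem t_CNT (h : S_TORS) : S_CNT := by
  intro n1 n2 b D hs hD0 hDD
  rw [← card_fr h n1 b D, ← card_pairs]
  symm
  refine Nat.card_eq_of_bijective (fun p : Fr n1 b D => (⟨toPair b n1 p.1.1 p.2.1,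
    toPair_mem hDD p.1.2 p.2.2.1⟩ : Pairs n1 n2 b)) ⟨?_, ?_⟩
  · rintro ⟨⟨⟨e, μ, β, ν⟩, hx⟩, ⟨A, hA⟩⟩ ⟨⟨⟨e', μ', β', ν'⟩, hx'⟩, ⟨A', hA'⟩⟩ heq
    have h1 := congrArg Subtype.val heq
    obtain ⟨h2, h3⟩ := toPair_inj hx hx' hA.1 hA.2 hA'.1 hA'.2 h1
    simp only [Prod.mk.injEq] at h2
    obtain ⟨rfl, rfl, rfl, rfl⟩ := h2
    subst h3
    rfl
  · rintro ⟨⟨v, w⟩, hv, hw, hvw⟩
    obtain ⟨x, A, hx, hA, hp⟩ := toPair_surj hs hD0 hDD hv hw hvw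
    exact ⟨⟨⟨x, hx⟩, ⟨A, hA⟩⟩, Subtype.ext hp⟩

theorem t_CNT' : S_CNT := t_CNT t_TORS

end Pool.Agent.Y288.Z7
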