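import Pool.Agent.Z700.Defs

/-!
Positive definite integral ternary forms of determinant one: equivalence with the sum of three
squares and the number of isometries (Z700-TORS).
-/

set_option autoImplicit false
set_option linter.all false

namespace Pool.Agent.Y288.Z7

open Finset Matrix Pool.Agent.Z700

/-- rounding -/
theorem exists_round (u v : ℤ) (hv : 0 < v) : ∃ t : ℤ, -v ≤ 2 * (u - t * v) ∧ 2 * (u - t * v) ≤ v := by
  have h := Int.emod_add_mul_ediv (2 * u + v) (2 * v)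
  have h2 := Int.emod_lt_of_pos (2 * u + v) (by linarith : 0 < 2 * v)
  have h1 := Int.emod_nonneg (2 * u + v) (by linarith : 2 * v ≠ 0)
  generalize (2 * u + v) % (2 * v) = r at *
  generalize (2 * u + v) / (2 * v) = q at *
  exact ⟨q, by linarith, by linarith⟩

/-- vectors with a given Gram matrix -/
def Rep (a b c d e f : ℤ) : Prop := ∃ v w z : Fin 3 → ℤ,
  v ⬝ᵥ v = a ∧ v ⬝ᵥ w = b ∧ v ⬝ᵥ z = c ∧ w ⬝ᵥ w = d ∧ w ⬝ᵥ z = e ∧ z ⬝ᵥ z = f

theorem Rep.shear12 {a b c d e f : ℤ} (t : ℤ)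
    (h : Rep a (b - t * a) c (d - 2 * t * b + t ^ 2 * a) (e - t * c) f) : Rep a b c d e f := by
  obtain ⟨v, w, z, h1, h2, h3, h4, h5, h6⟩ := h
  refine ⟨v, w + t • v, z, h1, ?_, h3, ?_, ?_, h6⟩
  · rw [dotProduct_add, dotProduct_smul, h1, h2, smul_eq_mul]; ring
  · rw [dotProduct_add, add_dotProduct, add_dotProduct, dotProduct_smul, smul_dotProduct,
      smul_dotProduct, dotProduct_smul, dotProduct_comm w v, h1, h2, h4]
    simp only [smul_eq_mul]; ring
  · rw [add_dotProduct, smul_dotProduct, h3, h5, smul_eq_mul]; ring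

theorem Rep.shear23 {a b c d e f : ℤ} (s : ℤ)
    (h : Rep a b (c - s * b) d (e - s * d) (f - 2 * s * e + s ^ 2 * d)) : Rep a b c d e f := by
  obtain ⟨v, w, z, h1, h2, h3, h4, h5, h6⟩ := h
  refine ⟨v, w, z + s • w, h1, h2, ?_, h4, ?_, ?_⟩
  · rw [dotProduct_add, dotProduct_smul, h3, h2, smul_eq_mul]; ring
  · rw [dotProduct_add, dotProduct_smul, h4, h5, smul_eq_mul]; ring
  · rw [dotProduct_add, add_dotProduct, add_dotProduct, dotProduct_smul, smul_dotProduct,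
      smul_dotProduct, dotProduct_smul, dotProduct_comm z w, h6, h5, h4]
    simp only [smul_eq_mul]; ring

theorem Rep.swap12 {a b c d e f : ℤ} (h : Rep d b e a c f) : Rep a b c d e f := by
  obtain ⟨v, w, z, h1, h2, h3, h4, h5, h6⟩ := h
  exact ⟨w, v, z, h4, by rw [dotProduct_comm, h2], h5, h1, h3, h6⟩

theorem Rep.swap23 {a b c d e f : ℤ} (h : Rep a c b f e d) : Rep a b c d e f := by
  obtain ⟨v, w, z, h1, h2, h3, h4, h5, h6⟩ := h
  exact ⟨v, z, w, h1, h3, h2, h6, by rw [dotProduct_comm, h5], h4⟩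

theorem rep_of (N : ℕ) : ∀ a b c d e f : ℤ, 0 < a → 0 < a * d - b ^ 2 →
    a * d * f + 2 * b * c * e - a * e ^ 2 - d * c ^ 2 - f * b ^ 2 = 1 →
    a + (a * d - b ^ 2) ≤ N → Rep a b c d e f := by
  induction N with
  | zero =>
    intro a b c d e f ha hD _ hN
    exfalso
    push_cast at hN
    linarith
  | succ N ih =>
    intro a b c d e f ha hD hdet hN
    push_cast at hN
    obtain ⟨t, ht1, ht2⟩ := exists_round b a ha
    apply Rep.shear12 t
    obtain ⟨b', hb'⟩ : ∃ b', b' = b - t * a := ⟨_, rfl⟩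
    obtain ⟨d', hd'⟩ : ∃ d', d' = d - 2 * t * b + t ^ 2 * a := ⟨_, rfl⟩
    obtain ⟨e', he'⟩ : ∃ e', e' = e - t * c := ⟨_, rfl⟩
    rw [← hb', ← hd', ← he']
    rw [← hb'] at ht1 ht2
    have hD' : a * d' - b' ^ 2 = a * d - b ^ 2 := by rw [hd', hb']; ring
    have hdet' : a * d' * f + 2 * b' * c * e' - a * e' ^ 2 - d' * c ^ 2 - f * b' ^ 2 = 1 := by
      rw [← hdet, hd', hb', he']; ring
    rw [← hD'] at hD hN
    have hd'0 : 0 < d' := by
      by_contra hcon
      push Not at hcon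
      nlinarith [sq_nonneg b']
    have hb2 : 4 * b' ^ 2 ≤ a ^ 2 := by nlinarith
    by_cases hlt : d' < a
    · apply Rep.swap12
      apply ih d' b' e' a c f hd'0 (by linarith) (by linarith)
      have : d' * a - b' ^ 2 = a * d' - b' ^ 2 := by ring
      rw [this]
      linarith
    push Not at hlt
    obtain ⟨D2, hD2⟩ : ∃ D2, D2 = a * d' - b' ^ 2 := ⟨_, rfl⟩
    rw [← hD2] at hD hN
    have h34 : 3 * a ^ 2 ≤ 4 * D2 := by nlinarith
    obtain ⟨s, hs1, hs2⟩ := exists_round (a * e' - b' * c) D2 hD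
    apply Rep.shear23 s
    obtain ⟨c2, hc2⟩ : ∃ c2, c2 = c - s * b' := ⟨_, rfl⟩
    obtain ⟨e2, he2⟩ : ∃ e2, e2 = e' - s * d' := ⟨_, rfl⟩
    obtain ⟨f2, hf2⟩ : ∃ f2, f2 = f - 2 * s * e' + s ^ 2 * d' := ⟨_, rfl⟩
    rw [← hc2, ← he2, ← hf2]
    have hdet2 : a * d' * f2 + 2 * b' * c2 * e2 - a * e2 ^ 2 - d' * c2 ^ 2 - f2 * b' ^ 2 = 1 := by
      rw [← hdet', hc2, he2, hf2]; ring
    obtain ⟨K, hK⟩ : ∃ K, K = a * e2 - b' * c2 := ⟨_, rfl⟩
    have hK2 : K = a * e' - b' * c - s * D2 := by rw [hK, he2, hc2, hD2]; ring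
    rw [← hK2] at hs1 hs2
    have hKK : 4 * K ^ 2 ≤ D2 ^ 2 := by nlinarith
    have hid : D2 * (a * f2 - c2 ^ 2) = K ^ 2 + a := by
      have : K ^ 2 + a * (a * d' * f2 + 2 * b' * c2 * e2 - a * e2 ^ 2 - d' * c2 ^ 2 - f2 * b' ^ 2) =
          D2 * (a * f2 - c2 ^ 2) := by
        rw [hK, hD2]; ring
      rw [← this, hdet2, mul_one]
    have hD3 : 0 < a * f2 - c2 ^ 2 := by
      by_contra hcon
      push Not at hcon
      nlinarith [sq_nonneg K]
    by_cases hlt2 : a * f2 - c2 ^ 2 < D2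
    · apply Rep.swap23
      apply ih a c2 b' f2 e2 d' ha hD3 (by linarith)
      linarith
    push Not at hlt2
    have h36 : D2 * D2 ≤ K ^ 2 + a := by
      rw [← hid]
      exact mul_le_mul_of_nonneg_left hlt2 hD.le
    have h35 : 3 * (D2 * D2) ≤ 4 * a := by
      rw [pow_two D2] at hKK
      linarith
    have ha1 : a = 1 := by
      by_contra hne
      have ha2 : 2 ≤ a := by omega
      have h37 : 2 * a ≤ a ^ 2 := by
        rw [pow_two]
        exact mul_le_mul_of_nonneg_right ha2 ha.le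
      have h38 : 3 * a ≤ 2 * D2 := by linarith
      have h39 : (3 * a) * (3 * a) ≤ (2 * D2) * (2 * D2) :=
        mul_self_le_mul_self (by linarith) h38
      have h40 : (3 * a) * (3 * a) = 9 * a ^ 2 := by ring
      have h41 : (2 * D2) * (2 * D2) = 4 * (D2 * D2) := by ring
      linarith
    subst ha1
    have hD21 : D2 = 1 := by
      by_contra hne
      have h2 : 2 ≤ D2 := by omega
      have h3 : 2 * 2 ≤ D2 * D2 := mul_self_le_mul_self (by norm_num) h2
      linarith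
    have hb0 : b' = 0 := by omega
    subst hb0
    have hd1 : d' = 1 := by linarith
    subst hd1
    refine ⟨![1, 0, 0], ![0, 1, 0], ![c2, e2, 1], ?_, ?_, ?_, ?_, ?_, ?_⟩
    · simp [dotProduct, Fin.sum_univ_three]
    · simp [dotProduct, Fin.sum_univ_three]
    · simp [dotProduct, Fin.sum_univ_three]
    · simp [dotProduct, Fin.sum_univ_three]
    · simp [dotProduct, Fin.sum_univ_three]
    · simp [dotProduct, Fin.sum_univ_three]
      linarith

/-- existence -/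
theorem exists_A {M : Matrix (Fin 3) (Fin 3) ℤ} (hM : PosM M) :
    ∃ A : Matrix (Fin 3) (Fin 3) ℤ, Aᵀ * A = M ∧ A.det = 1 := by
  obtain ⟨hs, h0, hD, hdet⟩ := hM
  have h10 : M 1 0 = M 0 1 := congrFun (congrFun hs 0) 1
  have h20 : M 2 0 = M 0 2 := congrFun (congrFun hs 0) 2
  have h21 : M 2 1 = M 1 2 := congrFun (congrFun hs 1) 2
  have hdet' := hdet
  rw [det_fin_three, h10, h20, h21] at hdet'
  obtain ⟨v, w, z, h1, h2, h3, h4, h5, h6⟩ := rep_of
    (M 0 0 + (M 0 0 * M 1 1 - M 0 1 ^ 2)).toNat (M 0 0) (M 0 1) (M 0 2) (M 1 1) (M 1 2) (M 2 2)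
    h0 hD (by linarith) (by rw [Int.toNat_of_nonneg (by linarith)])
  have hA : (Matrix.of ![v, w, z])ᵀᵀ * (Matrix.of ![v, w, z])ᵀ = M := by
    ext i j
    rw [transpose_transpose, mul_apply']
    fin_cases i <;> fin_cases j
    · exact h1
    · exact h2
    · exact h3
    · exact (dotProduct_comm _ _).trans (h2.trans h10.symm)
    · exact h4
    · exact h5
    · exact (dotProduct_comm _ _).trans (h3.trans h20.symm)
    · exact (dotProduct_comm _ _).trans (h5.trans h21.symm)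
    · exact h6
  set A := (Matrix.of ![v, w, z])ᵀ with hAdef
  have hd2 : A.det * A.det = 1 := by
    have := congrArg det hA
    rwa [det_mul, det_transpose, hdet] at this
  rcases mul_self_eq_one_iff.1 hd2 with h | h
  · exact ⟨A, hA, h⟩
  · refine ⟨-A, ?_, ?_⟩
    · rw [transpose_neg, neg_mul_neg, hA]
    · rw [det_neg, h]
      simp

/-- the six unit vectors -/
def un6 : Fin 6 → Fin 3 → ℤ := ![![1, 0, 0], ![0, 1, 0], ![0, 0, 1], ![-1, 0, 0], ![0, -1, 0],
  ![0, 0, -1]]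

theorem un6_surj {v : Fin 3 → ℤ} (h : v ⬝ᵥ v = 1) : ∃ i, un6 i = v := by
  rw [dotProduct, Fin.sum_univ_three] at h
  have hv : v = ![v 0, v 1, v 2] := by ext i; fin_cases i <;> rfl
  have b0 : v 0 ≤ 1 := by nlinarith [mul_self_nonneg (v 1), mul_self_nonneg (v 2)]
  have b0' : -1 ≤ v 0 := by nlinarith [mul_self_nonneg (v 1), mul_self_nonneg (v 2)]
  have b1 : v 1 ≤ 1 := by nlinarith [mul_self_nonneg (v 0), mul_self_nonneg (v 2)]
  have b1' : -1 ≤ v 1 := by nlinarith [mul_self_nonneg (v 0), mul_self_nonneg (v 2)]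
  have b2 : v 2 ≤ 1 := by nlinarith [mul_self_nonneg (v 0), mul_self_nonneg (v 1)]
  have b2' : -1 ≤ v 2 := by nlinarith [mul_self_nonneg (v 0), mul_self_nonneg (v 1)]
  rw [hv]
  generalize v 0 = x at *
  generalize v 1 = y at *
  generalize v 2 = z at *
  have hx : x = -1 ∨ x = 0 ∨ x = 1 := by omega
  have hy : y = -1 ∨ y = 0 ∨ y = 1 := by omega
  have hz : z = -1 ∨ z = 0 ∨ z = 1 := by omega
  rcases hx with rfl | rfl | rfl <;> rcases hy with rfl | rfl | rfl <;>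
    rcases hz with rfl | rfl | rfl <;>
    first
    | exact ⟨0, rfl⟩
    | exact ⟨1, rfl⟩
    | exact ⟨2, rfl⟩
    | exact ⟨3, rfl⟩
    | exact ⟨4, rfl⟩
    | exact ⟨5, rfl⟩
    | (exfalso; revert h; decide)

theorem un6_inj : Function.Injective un6 := by
  intro i j h
  have h0 := congrFun h 0
  have h1 := congrFun h 1
  have h2 := congrFun h 2
  revert h0 h1 h2 i j
  decide

/-- dot product and determinant in coordinates -/
def dt (v w : Fin 3 → ℤ) : ℤ := v 0 * w 0 + v 1 * w 1 + v 2 * w 2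

def dd3 (v w z : Fin 3 → ℤ) : ℤ := v 0 * w 1 * z 2 - v 0 * w 2 * z 1 - v 1 * w 0 * z 2 +
  v 1 * w 2 * z 0 + v 2 * w 0 * z 1 - v 2 * w 1 * z 0

def chk (p : Fin 6 × Fin 6 × Fin 6) : Bool :=
  dt (un6 p.1) (un6 p.2.1) = 0 && dt (un6 p.1) (un6 p.2.2) = 0 && dt (un6 p.2.1) (un6 p.2.2) = 0 &&
    dd3 (un6 p.1) (un6 p.2.1) (un6 p.2.2) = 1

theorem chk_card : (Finset.univ.filter fun p : Fin 6 × Fin 6 × Fin 6 => chk p = true).card = 24 := by
  decide +kernel

theorem dt_eq (v w : Fin 3 → ℤ) : v ⬝ᵥ w = dt v w := by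
  rw [dotProduct, Fin.sum_univ_three, dt]

/-- the matrix with given columns -/
def cols (v w z : Fin 3 → ℤ) : Matrix (Fin 3) (Fin 3) ℤ := (Matrix.of ![v, w, z])ᵀ

theorem cols_eq (A : Matrix (Fin 3) (Fin 3) ℤ) : A = cols (fun i => A i 0) (fun i => A i 1)
    (fun i => A i 2) := by
  ext i j
  fin_cases j <;> rfl

theorem det_cols (v w z : Fin 3 → ℤ) : (cols v w z).det = dd3 v w z := by
  rw [cols, det_transpose, det_fin_three, dd3]
  rfl

theorem gram_iff (v w z : Fin 3 → ℤ) (M : Matrix (Fin 3) (Fin 3) ℤ) (hM : Mᵀ = M) :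
    (cols v w z)ᵀ * cols v w z = M ↔ dt v v = M 0 0 ∧ dt v w = M 0 1 ∧ dt v z = M 0 2 ∧
      dt w w = M 1 1 ∧ dt w z = M 1 2 ∧ dt z z = M 2 2 := by
  have h10 : M 1 0 = M 0 1 := congrFun (congrFun hM 0) 1
  have h20 : M 2 0 = M 0 2 := congrFun (congrFun hM 0) 2
  have h21 : M 2 1 = M 1 2 := congrFun (congrFun hM 1) 2
  simp only [← dt_eq]
  constructor
  · intro h
    have hh : ∀ i j, ((cols v w z)ᵀ * cols v w z) i j = M i j := fun i j => by rw [h]
    exact ⟨hh 0 0, hh 0 1, hh 0 2, hh 1 1, hh 1 2, hh 2 2⟩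
  · rintro ⟨h1, h2, h3, h4, h5, h6⟩
    ext i j
    fin_cases i <;> fin_cases j
    · exact h1
    · exact h2
    · exact h3
    · exact (dotProduct_comm _ _).trans (h2.trans h10.symm)
    · exact h4
    · exact h5
    · exact (dotProduct_comm _ _).trans (h3.trans h20.symm)
    · exact (dotProduct_comm _ _).trans (h5.trans h21.symm)
    · exact h6

theorem card_rot : Nat.card {R : Matrix (Fin 3) (Fin 3) ℤ // Rᵀ * R = 1 ∧ R.det = 1} = 24 := by
  have key : ∀ v w z : Fin 3 → ℤ, ((cols v w z)ᵀ * cols v w z = 1 ∧ (cols v w z).det = 1) ↔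
      (dt v v = 1 ∧ dt v w = 0 ∧ dt v z = 0 ∧ dt w w = 1 ∧ dt w z = 0 ∧ dt z z = 1) ∧
        dd3 v w z = 1 := by
    intro v w z
    rw [det_cols, gram_iff v w z 1 (transpose_one)]
    simp
  have hn : ∀ i, dt (un6 i) (un6 i) = 1 := by decide
  let F : {p : Fin 6 × Fin 6 × Fin 6 // chk p = true} →
      {R : Matrix (Fin 3) (Fin 3) ℤ // Rᵀ * R = 1 ∧ R.det = 1} := fun p =>
    ⟨cols (un6 p.1.1) (un6 p.1.2.1) (un6 p.1.2.2), (key _ _ _).2 (by
      have h := p.2
      simp only [chk, Bool.and_eq_true, decide_eq_true_eq] at h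
      exact ⟨⟨hn _, h.1.1.1, h.1.1.2, hn _, h.1.2, hn _⟩, h.2⟩)⟩
  have hF : Function.Bijective F := by
    constructor
    · rintro ⟨⟨i, j, k⟩, hp⟩ ⟨⟨i', j', k'⟩, hp'⟩ h
      have h1 := congrArg Subtype.val h
      have h2 : ∀ r c, cols (un6 i) (un6 j) (un6 k) r c = cols (un6 i') (un6 j') (un6 k') r c :=
        fun r c => congrFun (congrFun h1 r) c
      have e1 : i = i' := un6_inj (funext fun r => h2 r 0)
      have e2 : j = j' := un6_inj (funext fun r => h2 r 1)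
      have e3 : k = k' := un6_inj (funext fun r => h2 r 2)
      subst e1; subst e2; subst e3
      rfl
    · rintro ⟨R, hR⟩
      have hR' := hR
      rw [cols_eq R, key] at hR'
      obtain ⟨⟨h1, h2, h3, h4, h5, h6⟩, h7⟩ := hR'
      obtain ⟨i, hi⟩ := un6_surj (v := fun i => R i 0) (by rw [dt_eq]; exact h1)
      obtain ⟨j, hj⟩ := un6_surj (v := fun i => R i 1) (by rw [dt_eq]; exact h4)
      obtain ⟨k, hk⟩ := un6_surj (v := fun i => R i 2) (by rw [dt_eq]; exact h6)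
      refine ⟨⟨(i, j, k), ?_⟩, ?_⟩
      · simp only [chk, Bool.and_eq_true, decide_eq_true_eq, hi, hj, hk]
        exact ⟨⟨⟨h2, h3⟩, h5⟩, h7⟩
      · apply Subtype.ext
        show cols (un6 i) (un6 j) (un6 k) = R
        rw [hi, hj, hk]
        exact (cols_eq R).symm
  rw [← Nat.card_eq_of_bijective F hF, Nat.card_eq_fintype_card, Fintype.card_subtype]
  exact chk_card

theorem t_TORS : Pool.Agent.Z700.S_TORS := by
  intro M hM
  obtain ⟨A0, hA0, hd0⟩ := exists_A hM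
  rw [← card_rot]
  have hu : IsUnit A0.det := by rw [hd0]; exact isUnit_one
  have h1 : A0 * A0⁻¹ = 1 := mul_nonsing_inv A0 hu
  have h2 : A0⁻¹ * A0 = 1 := nonsing_inv_mul A0 hu
  have h3 : A0⁻¹ᵀ * A0ᵀ = 1 := by rw [← transpose_mul, h1, transpose_one]
  have h4 : A0⁻¹.det = 1 := by
    have := congrArg det h1
    rwa [det_mul, hd0, one_mul, det_one] at this
  refine Nat.card_congr ?_
  refine ⟨fun A => ⟨A.1 * A0⁻¹, ?_, ?_⟩, fun R => ⟨R.1 * A0, ?_, ?_⟩, ?_, ?_⟩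
  · rw [transpose_mul, Matrix.mul_assoc, ← Matrix.mul_assoc A.1ᵀ, A.2.1, ← hA0,
      Matrix.mul_assoc A0ᵀ, h1, Matrix.mul_one, h3]
  · rw [det_mul, A.2.2, h4, one_mul]
  · rw [transpose_mul, Matrix.mul_assoc, ← Matrix.mul_assoc R.1ᵀ, R.2.1, Matrix.one_mul, hA0]
  · rw [det_mul, R.2.2, hd0, one_mul]
  · intro A
    apply Subtype.ext
    show A.1 * A0⁻¹ * A0 = A.1
    rw [Matrix.mul_assoc, h2, Matrix.mul_one]
  · intro R
    apply Subtype.ext
    show R.1 * A0 * A0⁻¹ = R.1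
    rw [Matrix.mul_assoc, h1, Matrix.mul_one]

end Pool.Agent.Y288.Z7
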